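import Pool.Agent.Y859.SF.All

/-!
# The density of `D_4` is `1 - 6/π²`

Erdos and Graham (1976) asked for the order of growth of `D_4(n)`, the number of the `m ≤ n` for
which exactly four factorials, the largest one `m!`, are needed in a product that is a perfect
square. We show that `D_4(n) ~ (1 - 6/π²) n`: up to a set of density zero `D_4` consists of the
integers that are not squarefree. The reason: for almost all `m`, if `m! b! y! y'!` is a square
with `m > b ≥ y ≥ y'`, then `b = m - 1` and `y' = y - 1` (so `m y` is a square).

Proof. Let `t = m - b`, `s = y - y'`. Products of `s` consecutive integers have at least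
`c s / log s` primes to an odd power (Erdos and Selfridge), so `s` is not much larger than `t`. By
the large sieve, for almost all `m`, all intervals of length `H ≤ t` next to `m` contain many
elements whose largest prime factor exceeds `(m H)^(1/2)` roughly; these primes must divide elements
of `(y', y]`, and the quotients are fractions in a very short interval, hence nearly all
equal, which is impossible if `t` is not bounded. For bounded `t` the integers `m` with `t ≠ s` are
counted through `y`, and for `t = s ≥ 2` the equation `α² y (y-1) ... = β² m (m-1) ...` has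
few solutions.

Contributors (project SF): helpers 859, 391, 891, 585, 689, 555, 748, 79, 980, 930, 907, 573, 363,
235, 457, 4, 510, 309, 317, 329, 361, 870, 814, 293, 338; starting library of helper601, helper112.
-/

set_option autoImplicit false

namespace Pool.Agent.Results.MP_9a49ed_nt.DensityOfD4

open Finset Filter

/-- `m` lies in `F_k`: some set of at least one and at most `k` positive integers with largest
element `m` has factorials whose product is a perfect square. -/
def InF (k m : ℕ) : Prop :=
  ∃ s : Finset ℕ, 1 ≤ s.card ∧ s.card ≤ k ∧ m ∈ s ∧ (∀ a ∈ s, 1 ≤ a ∧ a ≤ m) ∧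
    IsSquare (∏ a ∈ s, a.factorial)

/-- `m` lies in `D_k = F_k \ F_{k-1}`. -/
def InD (k m : ℕ) : Prop := InF k m ∧ ¬ InF (k - 1) m

open Classical in
/-- the counting function `D_k(n)` -/
noncomputable def countD (k n : ℕ) : ℕ := ((Icc 1 n).filter (fun m => InD k m)).card

/-- there is a representation by at most four factorials that is not of the form
`m! (m-1)! y! (y-1)!` -/
def Nontrivial (m : ℕ) : Prop := ∃ b y y' : ℕ, y' ≤ y ∧ y ≤ b ∧ b < m ∧
  IsSquare (m.factorial * b.factorial * y.factorial * y'.factorial) ∧
  ¬ (b + 1 = m ∧ y' + 1 = y)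

open Classical in
/-- (1) `D_4(n)/n → 1 - 6/π²`. (2) The integers `m` for which the equivalence of `m ∈ D_4` and
`m` not squarefree fails have density zero. (3) So have the elements of `F_3`, and (4) so have the `m` with
a nontrivial representation by at most four factorials. -/
theorem result :
    Tendsto (fun n : ℕ => (countD 4 n : ℝ) / n) atTop (nhds (1 - 6 / Real.pi ^ 2)) ∧
    Tendsto (fun n : ℕ =>
      (((Icc 1 n).filter (fun m => ¬ (InD 4 m ↔ ¬ Squarefree m))).card : ℝ) / n) atTop (nhds 0) ∧
    Tendsto (fun n : ℕ => (((Icc 1 n).filter (fun m => InF 3 m)).card : ℝ) / n) atTop (nhds 0) ∧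
    Tendsto (fun n : ℕ => (((Icc 1 n).filter (fun m => Nontrivial m)).card : ℝ) / n) atTop
      (nhds 0) := by
  obtain ⟨h1, h2, h3⟩ := Y859.SF.main Y859.SF.a_CLS Y235.SF.t_F4 Y235.SF.t_F3 Y235.SF.t_NSF
    Y293.SF.t_SQF Y338.SF.t_DENS
  refine ⟨?_, ?_, ?_, ?_⟩
  · exact h1
  · exact h2
  · exact h3
  · have h4 : Y859.SF.Null Nontrivial := by
      refine Y859.SF.null_mono Y859.SF.a_CLS 0 (fun m _ h => ?_)
      obtain ⟨b, y, y', e1, e2, e3, e4, e5⟩ := h
      exact ⟨b, y, y', ⟨e1, e2, e3, e4⟩, fun h => e5 ⟨by omega, by omega⟩⟩
    convert Y338.SF.t_DENS _ h4 using 6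

end Pool.Agent.Results.MP_9a49ed_nt.DensityOfD4
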